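import Pool.Agent.Helper17.SLD.Goals
import Pool.Agent.Helper26.SL.GA3
import Pool.Agent.Helper42.SL.GA4

/-! # Project SLD, packet UP -/

namespace Pool.Agent.Helper17.SLD.PkUP

open Pool.Agent.Helper17.SL Pool.Agent.Helper42.SLC
open Pool.Agent.Helper51.SigLeo Pool.Agent.Helper51.SixExp NumberField Module TensorProduct
open Pool.Agent.Helper17.SL.PkGA4 (TT Phi_TT Phi_ext f_comp f_conj)

universe u v w x y z

theorem thm : S_UP.{u, v, w} := by
  classical
  intro M _ N _ _ _ _ E _ ε θ n ρ hσ v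
  set f : (N →+* ℂ) → Additive (𝓞 N)ˣ → ℂ := fun ρ v ↦ Phi ε (archLog ρ) (tchi θ v) with hf
  by_contra hcon
  push Not at hcon
  have hind : LinearIndependent E (fun j ↦ tchi θ (v j)) := by
    rw [Fintype.linearIndependent_iff]
    intro g hg i
    by_contra hi
    exact hcon g (fun h ↦ hi (by rw [h]; rfl)) hg
  -- a relation between the `n + 1` vectors of `ℂ ^ n`
  obtain ⟨c, hc0, hc⟩ : ∃ c : Fin (n + 1) → ℂ, c ≠ 0 ∧ ∀ i, ∑ j, c j * f (ρ i) (v j) = 0 := by
    have hnot : ¬ LinearIndependent ℂ (fun j ↦ (fun i ↦ f (ρ i) (v j) : Fin n → ℂ)) := by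
      intro h
      have h1 := h.fintype_card_le_finrank
      simp at h1
    rw [Fintype.not_linearIndependent_iff] at hnot
    obtain ⟨c, hc, j, hj⟩ := hnot
    refine ⟨c, fun h ↦ hj (by rw [h]; rfl), fun i ↦ ?_⟩
    have := congrFun hc i
    simpa [Finset.sum_apply] using this
  -- for all embeddings
  have hall : ∀ σ : N →+* ℂ, ∑ j, c j * f σ (v j) = 0 := by
    intro σ
    have hcomp : ∀ (τ : N →+* ℂ) (g : N ≃ₐ[M] N) (u : Additive (𝓞 N)ˣ),
        f (τ.comp (g : N →+* N)) u = ε ((θ g : Eˣ) : E) * f τ u := fun τ g u ↦ f_comp ε θ τ g u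
    have hcj : ∀ (τ : N →+* ℂ) (u : Additive (𝓞 N)ˣ),
        f (ComplexEmbedding.conjugate τ) u = f τ u := fun τ u ↦ f_conj ε θ τ u
    have hgen : ∀ (i : Fin n) (g : N ≃ₐ[M] N),
        ∑ j, c j * f ((ρ i).comp (g : N →+* N)) (v j) = 0 := by
      intro i g
      have h1 : ∀ j, c j * f ((ρ i).comp (g : N →+* N)) (v j) =
          ε ((θ g : Eˣ) : E) * (c j * f (ρ i) (v j)) := by
        intro j
        rw [hcomp]
        ring
      rw [Finset.sum_congr rfl fun j _ ↦ h1 j, ← Finset.mul_sum, hc i, mul_zero]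
    rcases hσ σ with ⟨g, hg, hθ⟩ | ⟨i, g, hg | hg⟩
    · have h0 : ∀ u, f σ u = 0 := by
        intro u
        have h1 : f σ u = ε ((θ g : Eˣ) : E) * f σ u := by
          rw [← hcomp, ← hg, hcj]
        have h2 : (1 - ε ((θ g : Eˣ) : E)) * f σ u = 0 := by
          rw [sub_mul, one_mul, ← h1, sub_self]
        rcases mul_eq_zero.1 h2 with h3 | h3
        · exfalso
          apply hθ
          have h4 : ε ((θ g : Eˣ) : E) = ε 1 := by
            rw [map_one]
            exact (sub_eq_zero.1 h3).symm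
          exact Units.ext (ε.injective h4)
        · exact h3
      refine Finset.sum_eq_zero fun j _ ↦ ?_
      rw [h0, mul_zero]
    · rw [hg]
      exact hgen i g
    · have h1 : ∀ j, c j * f σ (v j) = c j * f ((ρ i).comp (g : N →+* N)) (v j) := by
        intro j
        rw [← hg, hcj]
      rw [Finset.sum_congr rfl fun j _ ↦ h1 j]
      exact hgen i g
  -- the relation in `ℂ ⊗ U`
  have hrel : ∑ j, c j • TT ε _ (tchi θ (v j)) = 0 := by
    refine PkGA3.thm.{v, 0} N ℂ (RingHom.id ℂ) _ fun σ ↦ ?_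
    rw [map_sum]
    refine (Finset.sum_congr rfl fun j _ ↦ ?_).trans (hall σ)
    rw [Phi_smul, Phi_TT]
    rfl
  -- linear forms
  apply hc0
  funext i
  have hni : tchi θ (v i) ∉ Submodule.span E (Set.range fun j : {j // j ≠ i} ↦
      tchi θ (v (j : Fin (n + 1)))) := by
    have := hind.notMem_span_image (s := {i}ᶜ) (x := i) (by simp)
    intro hmem
    apply this
    refine Submodule.span_mono ?_ hmem
    rintro _ ⟨⟨j, hj⟩, rfl⟩
    exact ⟨j, hj, rfl⟩
  obtain ⟨F, hF1, hF2⟩ := Submodule.exists_le_ker_of_notMem hni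
  have hF3 : ∀ j, j ≠ i → F (tchi θ (v j)) = 0 := by
    intro j hj
    exact hF2 (Submodule.subset_span ⟨⟨j, hj⟩, rfl⟩)
  have h5 := congrArg (Phi (RingHom.id ℂ) ((ε : E →+ ℂ).comp (F.toAddMonoidHom.comp
    (TensorProduct.mk ℤ E (Additive (𝓞 N)ˣ) 1).toAddMonoidHom))) hrel
  rw [map_sum, map_zero, Finset.sum_eq_single i] at h5
  · rw [Phi_smul, Phi_TT, Phi_ext] at h5
    rcases mul_eq_zero.1 h5 with h6 | h6
    · exact h6
    · exact absurd ((map_eq_zero ε).1 h6) hF1
  · intro j _ hj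
    rw [Phi_smul, Phi_TT, Phi_ext, hF3 j hj, map_zero, smul_zero]
  · intro h
    exact absurd (Finset.mem_univ i) h

end Pool.Agent.Helper17.SLD.PkUP
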